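import Mathlib

/-!
# A vertex-transitive graph of quadratic growth with survival number two (MP_20f07a, Q1)

The graph has the vertices `(x, y, t)` with `x, y ∈ ℤ` and a type `t`. A vertex of type `true` is
adjacent to the other vertices of type `true` which differ by at most `2` in the first coordinate
and by at most `1` in the second one; for the type `false` the two coordinates exchange their
roles; and the two vertices with the same coordinates and different types are adjacent.
-/

namespace Pool.Agent.Results.MP_20f07a_co.QuadraticSurvivalTwo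

open SimpleGraph

section defs

variable {V : Type*}

/-- Every vertex can be moved to every other vertex by an automorphism. -/
def VertexTransitive (G : SimpleGraph V) : Prop := ∀ u v : V, ∃ φ : G ≃g G, φ u = v

/-- The ball `B(v, r)`. -/
def Ball (G : SimpleGraph V) (v : V) (r : ℕ) : Set V := {u | G.dist u v ≤ r}

/-- The sizes of the balls are bounded by a linear function of the radius. -/
def LinearGrowth (G : SimpleGraph V) : Prop :=
  ∃ C : ℕ, ∀ (v : V) (r : ℕ), (Ball G v r).ncard ≤ C * (r + 1)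

/-- The Voronoi cell of `v` with respect to `T`. -/
def Cell (G : SimpleGraph V) (v : V) (T : Finset V) : Set V :=
  {u | ∀ v' ∈ T, G.dist u v ≤ G.dist u v'}

/-- The family `𝒯(D, n)`. -/
def Sites (G : SimpleGraph V) (D n : ℕ) : Set (Finset V) :=
  {T | n ≤ T.card ∧ ∀ v₁ ∈ T, ∀ v₂ ∈ T, v₁ ≠ v₂ → D < G.dist v₁ v₂}

/-- The number of sites with an infinite Voronoi cell. -/
noncomputable def numInfinite (G : SimpleGraph V) (T : Finset V) : ℕ :=
  {v | v ∈ T ∧ (Cell G v T).Infinite}.ncard

/-- The survival number. -/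
noncomputable def survival (G : SimpleGraph V) : ℕ∞ :=
  sSup {m : ℕ∞ | ∃ n : ℕ, 1 ≤ n ∧ m = n ∧ ∃ D : ℕ, ∀ T ∈ Sites G D n, n ≤ numInfinite G T}

end defs

/-- The range of the moves in the first direction. -/
def rx (t : Bool) : ℕ := if t then 2 else 1

/-- The range of the moves in the second direction. -/
def ry (t : Bool) : ℕ := if t then 1 else 2

/-- The graph. -/
def Gr : SimpleGraph (ℤ × ℤ × Bool) where
  Adj u v := u ≠ v ∧ ((u.2.2 = v.2.2 ∧ (v.1 - u.1).natAbs ≤ rx u.2.2 ∧
    (v.2.1 - u.2.1).natAbs ≤ ry u.2.2) ∨ (u.2.2 ≠ v.2.2 ∧ v.1 = u.1 ∧ v.2.1 = u.2.1))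
  symm := ⟨fun u v h => by
    refine ⟨h.1.symm, ?_⟩
    rcases h.2 with ⟨h1, h2, h3⟩ | ⟨h1, h2, h3⟩
    · left
      rw [← h1]
      exact ⟨rfl, by omega, by omega⟩
    · right
      exact ⟨h1.symm, h2.symm, h3.symm⟩⟩
  loopless := ⟨fun u h => h.1 rfl⟩

/-- The least possible number of steps with `h` moves of the type `false` and `k` moves of the type
`true`, from a vertex of type `s` to a vertex of type `t`. -/
def cost (s t : Bool) (h k : ℕ) : ℕ :=
  if s then (if t then (if h = 0 then k else h + k + 2) else h + k + 1) else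
    (if t then h + k + 1 else (if k = 0 then h else h + k + 2))

lemma lower {u v : ℤ × ℤ × Bool} (w : Gr.Walk u v) : ∃ h k : ℕ,
    (v.1 - u.1).natAbs ≤ h + 2 * k ∧ (v.2.1 - u.2.1).natAbs ≤ 2 * h + k ∧
      cost u.2.2 v.2.2 h k ≤ w.length := by
  induction w with
  | nil =>
    refine ⟨0, 0, by simp, by simp, ?_⟩
    unfold cost
    split_ifs <;> simp_all
  | @cons x y u h p ih =>
    obtain ⟨a, b, h1, h2, h3⟩ := ih
    rw [Walk.length_cons]
    have hadj := h.2
    generalize p.length = L at h3 ⊢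
    clear p h
    obtain ⟨x1, x2, s⟩ := x
    obtain ⟨y1, y2, t⟩ := y
    obtain ⟨u1, u2, r⟩ := u
    simp only at hadj h1 h2 h3 ⊢
    rcases hadj with ⟨e1, e2, e3⟩ | ⟨e1, e2, e3⟩
    · subst e1
      cases s
      · refine ⟨a + 1, b, ?_, ?_, ?_⟩
        · simp [rx] at e2
          omega
        · simp [ry] at e3
          omega
        · unfold cost at h3 ⊢
          cases r <;> simp at h3 ⊢
          · split_ifs at h3 ⊢ <;> omega
          · omega
      · refine ⟨a, b + 1, ?_, ?_, ?_⟩
        · simp [rx] at e2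
          omega
        · simp [ry] at e3
          omega
        · unfold cost at h3 ⊢
          cases r <;> simp at h3 ⊢
          · omega
          · split_ifs at h3 ⊢ <;> omega
    · refine ⟨a, b, by omega, by omega, ?_⟩
      unfold cost at h3 ⊢
      cases s <;> cases t <;> cases r <;> simp at e1 h3 ⊢ <;> split_ifs at h3 ⊢ <;> omega

/-- Walks with moves of one type. -/
lemma pure_walk (t : Bool) (n : ℕ) : ∀ (x y x' y' : ℤ), (x' - x).natAbs ≤ n * rx t →
    (y' - y).natAbs ≤ n * ry t → ∃ w : Gr.Walk (x, y, t) (x', y', t), w.length ≤ n := by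
  induction n with
  | zero =>
    intro x y x' y' h1 h2
    have e1 : x' = x := by omega
    have e2 : y' = y := by omega
    subst e1 e2
    exact ⟨Walk.nil, le_rfl⟩
  | succ n ih =>
    intro x y x' y' h1 h2
    have clamp : ∀ (a : ℤ) (r : ℕ), a.natAbs ≤ (n + 1) * r →
        ∃ b : ℤ, b.natAbs ≤ r ∧ (a - b).natAbs ≤ n * r := by
      intro a r h
      rw [Nat.add_mul, one_mul] at h
      refine ⟨max (-r) (min r a), ?_, ?_⟩
      · omega
      · generalize n * r = N at h ⊢
        omega
    obtain ⟨a, ha, ha'⟩ := clamp _ _ h1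
    obtain ⟨b, hb, hb'⟩ := clamp _ _ h2
    obtain ⟨w, hw⟩ := ih (x + a) (y + b) x' y' (by
      rwa [show x' - (x + a) = x' - x - a by ring]) (by
      rwa [show y' - (y + b) = y' - y - b by ring])
    by_cases h0 : (x, y, t) = (x + a, y + b, t)
    · have e1 := congrArg Prod.fst h0
      have e2 := congrArg (fun z => z.2.1) h0
      simp only at e1 e2
      have ea : a = 0 := by omega
      have eb : b = 0 := by omega
      rw [ea, sub_zero] at ha'
      rw [eb, sub_zero] at hb'
      obtain ⟨w', hw'⟩ := ih x y x' y' ha' hb'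
      exact ⟨w', by omega⟩
    · have hadj : Gr.Adj (x, y, t) (x + a, y + b, t) :=
        ⟨h0, Or.inl ⟨rfl, by simpa using ha, by simpa using hb⟩⟩
      exact ⟨Walk.cons hadj w, by rw [Walk.length_cons]; omega⟩

lemma switch_walk (x y : ℤ) (s t : Bool) (h : s ≠ t) :
    ∃ w : Gr.Walk (x, y, s) (x, y, t), w.length = 1 := by
  have hadj : Gr.Adj (x, y, s) (x, y, t) :=
    ⟨fun e => h (congrArg (fun z => z.2.2) e), Or.inr ⟨h, rfl, rfl⟩⟩
  exact ⟨Walk.cons hadj Walk.nil, rfl⟩

lemma connected : Gr.Connected := by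
  have : Nonempty (ℤ × ℤ × Bool) := ⟨(0, 0, true)⟩
  refine ⟨fun u v => ?_⟩
  obtain ⟨x, y, s⟩ := u
  obtain ⟨x', y', t⟩ := v
  obtain ⟨w, -⟩ := pure_walk s ((x' - x).natAbs + (y' - y).natAbs) x y x' y' (by
    unfold rx; split_ifs <;> omega) (by unfold ry; split_ifs <;> omega)
  by_cases h : s = t
  · subst h
    exact ⟨w⟩
  · obtain ⟨w', -⟩ := switch_walk x' y' s t h
    exact ⟨w.append w'⟩

lemma dist_pure (t : Bool) (n : ℕ) (x y x' y' : ℤ) (h1 : (x' - x).natAbs ≤ n * rx t)
    (h2 : (y' - y).natAbs ≤ n * ry t) : Gr.dist (x, y, t) (x', y', t) ≤ n := by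
  obtain ⟨w, hw⟩ := pure_walk t n x y x' y' h1 h2
  exact (dist_le w).trans hw

lemma dist_switch (x y : ℤ) (s t : Bool) : Gr.dist (x, y, s) (x, y, t) ≤ 1 := by
  by_cases h : s = t
  · subst h
    simp
  · obtain ⟨w, hw⟩ := switch_walk x y s t h
    exact (dist_le w).trans hw.le

/-- Mixed walks from a vertex of type `false` to a vertex of type `true`. -/
lemma dist_mixed (h k : ℕ) (x y x' y' : ℤ) (h1 : (x' - x).natAbs ≤ h + 2 * k)
    (h2 : (y' - y).natAbs ≤ 2 * h + k) : Gr.dist (x, y, false) (x', y', true) ≤ h + k + 1 := by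
  obtain ⟨a, ha, ha'⟩ : ∃ a : ℤ, a.natAbs ≤ h ∧ (x' - x - a).natAbs ≤ 2 * k :=
    ⟨max (-h) (min h (x' - x)), by omega, by omega⟩
  obtain ⟨b, hb, hb'⟩ : ∃ b : ℤ, b.natAbs ≤ 2 * h ∧ (y' - y - b).natAbs ≤ k :=
    ⟨max (-(2 * h)) (min (2 * h) (y' - y)), by omega, by omega⟩
  have d1 := dist_pure false h x y (x + a) (y + b) (by simp [rx]; omega) (by simp [ry]; omega)
  have d2 := dist_switch (x + a) (y + b) false true
  have d3 := dist_pure true k (x + a) (y + b) x' y' (by simp [rx]; omega) (by simp [ry]; omega)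
  have t1 := connected.dist_triangle (u := (x, y, false)) (v := (x + a, y + b, false))
    (w := (x + a, y + b, true))
  have t2 := connected.dist_triangle (u := (x, y, false)) (v := (x + a, y + b, true))
    (w := (x', y', true))
  omega

/-- Mixed walks between vertices of type `false`. -/
lemma dist_mixed' (h k : ℕ) (x y x' y' : ℤ) (h1 : (x' - x).natAbs ≤ h + 2 * k)
    (h2 : (y' - y).natAbs ≤ 2 * h + k) : Gr.dist (x, y, false) (x', y', false) ≤ h + k + 2 := by
  have d1 := dist_mixed h k x y x' y' h1 h2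
  have d2 := dist_switch x' y' true false
  have t1 := connected.dist_triangle (u := (x, y, false)) (v := (x', y', true))
    (w := (x', y', false))
  omega

lemma dist_lower (u v : ℤ × ℤ × Bool) : ∃ h k : ℕ,
    (v.1 - u.1).natAbs ≤ h + 2 * k ∧ (v.2.1 - u.2.1).natAbs ≤ 2 * h + k ∧
      cost u.2.2 v.2.2 h k ≤ Gr.dist u v := by
  obtain ⟨w, hw⟩ := connected.exists_walk_length_eq_dist u v
  rw [← hw]
  exact lower w

lemma le_cost (s t : Bool) (h k : ℕ) : h + k ≤ cost s t h k := by
  unfold cost
  split_ifs <;> omega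

lemma natAbs_fst_le (u v : ℤ × ℤ × Bool) : (v.1 - u.1).natAbs ≤ 2 * Gr.dist u v := by
  obtain ⟨h, k, h1, h2, h3⟩ := dist_lower u v
  have := le_cost u.2.2 v.2.2 h k
  omega

lemma natAbs_snd_le (u v : ℤ × ℤ × Bool) : (v.2.1 - u.2.1).natAbs ≤ 2 * Gr.dist u v := by
  obtain ⟨h, k, h1, h2, h3⟩ := dist_lower u v
  have := le_cost u.2.2 v.2.2 h k
  omega

/-- The key step: a distant site is closer to `u` than the origin. -/
lemma core (R : ℕ) (hR : 6 ≤ R) (u : ℤ × ℤ × Bool) (hu : R + 10 ≤ Gr.dist (0, 0, true) u)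
    (c : ℤ) (hc : (u.1 - c).natAbs + R = u.1.natAbs ∨ (u.1 - c).natAbs + u.1.natAbs = R) :
    Gr.dist (c, 0, false) u < Gr.dist (0, 0, true) u := by
  obtain ⟨a, b, t⟩ := u
  simp only at hc
  obtain ⟨h, k, h1, h2, h3⟩ := dist_lower (0, 0, true) (a, b, t)
  simp only [sub_zero] at h1 h2 h3
  have hbig : R + 7 ≤ h + k := by
    have t1 := connected.dist_triangle (u := (0, 0, true)) (v := (0, 0, false)) (w := (a, b, t))
    have d1 := dist_switch 0 0 true false
    have d2 : Gr.dist (0, 0, false) (a, b, t) ≤ h + k + 2 := by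
      cases t
      · exact dist_mixed' h k 0 0 a b (by simpa using h1) (by simpa using h2)
      · have := dist_mixed h k 0 0 a b (by simpa using h1) (by simpa using h2)
        omega
    omega
  generalize hm : (a - c).natAbs = m at hc
  cases t
  · have hcost : cost true false h k = h + k + 1 := by simp [cost]
    rw [hcost] at h3
    refine lt_of_le_of_lt (b := h + k) ?_ (by omega)
    by_cases hmk : m ≤ h + k
    · exact dist_pure false (h + k) c 0 a b (by simp [rx]; omega) (by simp [ry]; omega)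
    · have := dist_mixed' (h + 2) (k - 4) c 0 a b (by omega) (by simp; omega)
      omega
  · rcases Nat.eq_zero_or_pos h with rfl | hpos
    · have hcost : cost true true 0 k = k := by simp [cost]
      rw [hcost] at h3
      have := dist_mixed 2 (k - 4) c 0 a b (by omega) (by simp; omega)
      omega
    · have hcost : cost true true h k = h + k + 2 := by
        simp [cost]
        omega
      rw [hcost] at h3
      have := dist_mixed h k c 0 a b (by omega) (by simp; omega)
      omega

/-- Two distant sites shield the origin. -/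
lemma shield (R : ℕ) (hR : 6 ≤ R) (u : ℤ × ℤ × Bool) (hu : R + 10 ≤ Gr.dist (0, 0, true) u) :
    Gr.dist ((R : ℤ), 0, false) u < Gr.dist (0, 0, true) u ∨
      Gr.dist (-(R : ℤ), 0, false) u < Gr.dist (0, 0, true) u := by
  rcases le_or_gt 0 u.1 with h | h
  · left
    exact core R hR u hu _ (by omega)
  · right
    exact core R hR u hu _ (by omega)

lemma finite_ball (v : ℤ × ℤ × Bool) (r : ℕ) : (Ball Gr v r).Finite := by
  refine ((Set.finite_Icc (v.1 - 2 * r) (v.1 + 2 * r)).prod
    ((Set.finite_Icc (v.2.1 - 2 * r) (v.2.1 + 2 * r)).prod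
      (Set.finite_univ (α := Bool)))).subset ?_
  intro u hu
  unfold Ball at hu
  rw [Set.mem_ofPred_eq] at hu
  have h1 := natAbs_fst_le u v
  have h2 := natAbs_snd_le u v
  refine ⟨?_, ?_, trivial⟩
  · rw [Set.mem_Icc]
    omega
  · simp only [Set.mem_Icc]
    omega

/-- The sites different from the origin. -/
def site (D j : ℕ) : ℤ × ℤ × Bool :=
  if j = 0 then (-((2 * D + 6 : ℕ) : ℤ), 0, false) else ((j * (2 * D + 6) : ℕ), 0, false)

lemma site_fst (D j : ℕ) : ∃ c : ℤ, (site D j).1 = c * (2 * D + 6) ∧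
    ((j = 0 ∧ c = -1) ∨ (1 ≤ j ∧ c = j)) := by
  unfold site
  split_ifs with h
  · exact ⟨-1, by push_cast; ring, Or.inl ⟨h, rfl⟩⟩
  · exact ⟨j, by push_cast; ring, Or.inr ⟨by omega, rfl⟩⟩

lemma sep (D : ℕ) (c : ℤ) (hc : c ≠ 0) : 2 * D < (c * (2 * D + 6)).natAbs := by
  rw [Int.natAbs_mul]
  have h1 : 1 ≤ c.natAbs := Int.natAbs_pos.2 hc
  have h2 : (2 * (D : ℤ) + 6).natAbs = 2 * D + 6 := by omega
  rw [h2]
  nlinarith

lemma site_sep (D i j : ℕ) (hij : i ≠ j) : D < Gr.dist (site D i) (site D j) := by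
  obtain ⟨c, hc, hc'⟩ := site_fst D i
  obtain ⟨d, hd, hd'⟩ := site_fst D j
  have h1 := natAbs_fst_le (site D i) (site D j)
  rw [hc, hd, ← sub_mul] at h1
  have h2 := sep D (d - c) (by omega)
  omega

lemma site_sep_zero (D j : ℕ) : D < Gr.dist (0, 0, true) (site D j) := by
  obtain ⟨c, hc, hc'⟩ := site_fst D j
  have h1 := natAbs_fst_le (0, 0, true) (site D j)
  rw [hc] at h1
  simp only [sub_zero] at h1
  have h2 := sep D c (by omega)
  omega

lemma few (D n : ℕ) (hn : 3 ≤ n) : ∃ T ∈ Sites Gr D n, numInfinite Gr T < n := by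
  classical
  have hne : ∀ j, site D j ≠ (0, 0, true) := by
    intro j h
    have h1 := site_sep_zero D j
    rw [h] at h1
    simp at h1
  have hinj : Function.Injective (site D) := by
    intro i j h
    by_contra hij
    have h1 := site_sep D i j hij
    rw [h] at h1
    simp at h1
  refine ⟨insert (0, 0, true) ((Finset.range (n - 1)).image (site D)), ⟨?_, ?_⟩, ?_⟩
  · rw [Finset.card_insert_of_notMem, Finset.card_image_of_injective _ hinj, Finset.card_range]
    · omega
    · rw [Finset.mem_image]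
      rintro ⟨j, -, hj⟩
      exact hne j hj
  · intro v₁ h₁ v₂ h₂ hne'
    rw [Finset.mem_insert, Finset.mem_image] at h₁ h₂
    rcases h₁ with rfl | ⟨i, -, rfl⟩ <;> rcases h₂ with rfl | ⟨j, -, rfl⟩
    · exact absurd rfl hne'
    · exact site_sep_zero D j
    · rw [SimpleGraph.dist_comm]
      exact site_sep_zero D i
    · apply site_sep
      rintro rfl
      exact hne' rfl
  · set T := insert ((0 : ℤ), (0 : ℤ), true) ((Finset.range (n - 1)).image (site D)) with hT
    have hcell : ¬ (Cell Gr (0, 0, true) T).Infinite := by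
      rw [Set.not_infinite]
      refine (finite_ball (0, 0, true) (2 * D + 6 + 10)).subset ?_
      intro u hu
      by_contra hcon
      unfold Ball at hcon
      rw [Set.mem_ofPred_eq, not_le, SimpleGraph.dist_comm] at hcon
      have hmem : ∀ j < 2, site D j ∈ T := by
        intro j hj
        rw [hT]
        exact Finset.mem_insert_of_mem (Finset.mem_image_of_mem _
          (Finset.mem_range.2 (by omega)))
      have hs := shield (2 * D + 6) (by omega) u hcon.le
      rcases hs with hs | hs
      · have h1 := hu _ (hmem 1 (by norm_num))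
        rw [SimpleGraph.dist_comm, SimpleGraph.dist_comm (v := site D 1)] at h1
        have e : site D 1 = (((2 * D + 6 : ℕ) : ℤ), 0, false) := by simp [site]
        rw [e] at h1
        omega
      · have h1 := hu _ (hmem 0 (by norm_num))
        rw [SimpleGraph.dist_comm, SimpleGraph.dist_comm (v := site D 0)] at h1
        have e : site D 0 = (-((2 * D + 6 : ℕ) : ℤ), 0, false) := by simp [site]
        rw [e] at h1
        omega
    have h1 : {v | v ∈ T ∧ (Cell Gr v T).Infinite} ⊆
        (((Finset.range (n - 1)).image (site D) : Finset (ℤ × ℤ × Bool)) :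
          Set (ℤ × ℤ × Bool)) := by
      rintro v ⟨hv, hv'⟩
      rw [hT, Finset.mem_insert] at hv
      rcases hv with rfl | hv
      · exact absurd hv' hcell
      · exact hv
    have h2 := Set.ncard_le_ncard h1 (Finset.finite_toSet _)
    rw [Set.ncard_coe_finset] at h2
    have h3 := Finset.card_image_le (s := Finset.range (n - 1)) (f := site D)
    rw [Finset.card_range] at h3
    unfold numInfinite
    omega

/-- Every vertex lies on a two-way infinite geodesic. -/
lemma line (x : ℤ × ℤ × Bool) (n : ℕ) : ∃ u v, Gr.dist x u = n ∧ Gr.dist x v = n ∧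
    2 * n ≤ Gr.dist u v := by
  suffices h : ∃ u v, Gr.dist x u ≤ n ∧ Gr.dist x v ≤ n ∧ 2 * n ≤ Gr.dist u v by
    obtain ⟨u, v, h1, h2, h3⟩ := h
    have t1 := connected.dist_triangle (u := u) (v := x) (w := v)
    rw [SimpleGraph.dist_comm (u := u) (v := x)] at t1
    exact ⟨u, v, by omega, by omega, h3⟩
  obtain ⟨a, b, t⟩ := x
  cases t
  · refine ⟨(a, b + 2 * n, false), (a, b - 2 * n, false), ?_, ?_, ?_⟩
    · exact dist_pure false n _ _ _ _ (by simp) (by simp [ry]; omega)
    · exact dist_pure false n _ _ _ _ (by simp) (by simp [ry]; omega)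
    · have := natAbs_snd_le (a, b + 2 * n, false) (a, b - 2 * n, false)
      simp only at this
      omega
  · refine ⟨(a + 2 * n, b, true), (a - 2 * n, b, true), ?_, ?_, ?_⟩
    · exact dist_pure true n _ _ _ _ (by simp [rx]; omega) (by simp)
    · exact dist_pure true n _ _ _ _ (by simp [rx]; omega) (by simp)
    · have := natAbs_fst_le (a + 2 * n, b, true) (a - 2 * n, b, true)
      simp only at this
      omega

lemma two_le (T : Finset (ℤ × ℤ × Bool)) (hT : 2 ≤ T.card) : 2 ≤ numInfinite Gr T := by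
  classical
  set I := T.filter (fun v => (Cell Gr v T).Infinite) with hI
  have hnum : numInfinite Gr T = I.card := by
    unfold numInfinite
    rw [← Set.ncard_coe_finset]
    congr 1
    ext v
    simp [hI]
  rw [hnum]
  by_contra hcon
  obtain ⟨x, hx, hxI⟩ : ∃ x ∈ T, x ∉ I := by
    by_contra hc
    push Not at hc
    have := Finset.card_le_card (show T ⊆ I from hc)
    omega
  set F : Set (ℤ × ℤ × Bool) := ⋃ v ∈ T.filter (fun v => v ∉ I), Cell Gr v T with hF
  have hFfin : F.Finite := by
    apply Set.Finite.biUnion (Finset.finite_toSet _)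
    intro v hv
    rw [Finset.mem_coe, Finset.mem_filter, hI, Finset.mem_filter] at hv
    by_contra hcon
    exact hv.2 ⟨hv.1, hcon⟩
  have near : ∀ u, u ∉ F → ∃ p ∈ I, Gr.dist u p < Gr.dist u x := by
    intro u hu
    obtain ⟨p, hp, hmin⟩ := T.exists_min_image (fun v => Gr.dist u v) ⟨x, hx⟩
    have hpI : p ∈ I := by
      by_contra hpI
      apply hu
      rw [hF, Set.mem_iUnion₂]
      exact ⟨p, by rw [Finset.mem_filter]; exact ⟨hp, hpI⟩, hmin⟩
    refine ⟨p, hpI, ?_⟩
    by_contra hle
    rw [not_lt] at hle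
    apply hu
    rw [hF, Set.mem_iUnion₂]
    exact ⟨x, by rw [Finset.mem_filter]; exact ⟨hx, hxI⟩, fun v hv => hle.trans (hmin v hv)⟩
  obtain ⟨N, hN⟩ : ∃ N, ∀ f ∈ F, Gr.dist x f < N := by
    refine ⟨hFfin.toFinset.sup (fun f => Gr.dist x f) + 1, fun f hf => ?_⟩
    have := Finset.le_sup (f := fun f => Gr.dist x f) (hFfin.mem_toFinset.2 hf)
    omega
  obtain ⟨u, v, h1, h2, h3⟩ := line x N
  obtain ⟨p, hp, hpu⟩ := near u (fun hu => by have := hN u hu; omega)
  obtain ⟨q, hq, hqv⟩ := near v (fun hv => by have := hN v hv; omega)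
  have hpq : p = q := Finset.card_le_one.1 (by omega) p hp q hq
  subst hpq
  have t1 := connected.dist_triangle (u := u) (v := p) (w := v)
  rw [SimpleGraph.dist_comm (u := p) (v := v)] at t1
  rw [SimpleGraph.dist_comm (u := x)] at h1 h2
  omega

lemma survival_eq : survival Gr = 2 := by
  apply le_antisymm
  · apply sSup_le
    rintro m ⟨n, -, rfl, D, h⟩
    have hn : n ≤ 2 := by
      by_contra hcon
      obtain ⟨T, hT, hlt⟩ := few D n (by omega)
      have := h T hT
      omega
    exact_mod_cast hn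
  · apply le_sSup
    exact ⟨2, by norm_num, rfl, 0, fun T hT => two_le T hT.1⟩

lemma not_linear : ¬ LinearGrowth Gr := by
  classical
  rintro ⟨C, hC⟩
  have h1 := hC (0, 0, true) C
  have h2 : (((Finset.Icc (-(C : ℤ)) C ×ˢ Finset.Icc (-(C : ℤ)) C).image
      (fun z => (z.1, z.2, true)) : Finset (ℤ × ℤ × Bool)) : Set (ℤ × ℤ × Bool)) ⊆
      Ball Gr (0, 0, true) C := by
    intro u hu
    rw [Finset.mem_coe, Finset.mem_image] at hu
    obtain ⟨z, hz, rfl⟩ := hu
    rw [Finset.mem_product, Finset.mem_Icc, Finset.mem_Icc] at hz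
    unfold Ball
    rw [Set.mem_ofPred_eq]
    exact dist_pure true C _ _ _ _ (by simp [rx]; omega) (by simp [ry]; omega)
  have h3 := Set.ncard_le_ncard h2 (finite_ball _ _)
  rw [Set.ncard_coe_finset, Finset.card_image_of_injective, Finset.card_product,
    Int.card_Icc] at h3
  · have e : ((C : ℤ) + 1 - -(C : ℤ)).toNat = 2 * C + 1 := by omega
    rw [e] at h3
    nlinarith
  · intro z z' h
    simp only [Prod.mk.injEq, and_true] at h
    exact Prod.ext h.1 h.2

/-- Translations. -/
def shift (a b : ℤ) : Gr ≃g Gr where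
  toEquiv := ⟨fun x => (x.1 + a, x.2.1 + b, x.2.2), fun x => (x.1 - a, x.2.1 - b, x.2.2),
    fun x => by simp, fun x => by simp⟩
  map_rel_iff' := by
    intro x y
    simp [Gr, Prod.ext_iff]

/-- Exchanging the coordinates and the types. -/
def swap : Gr ≃g Gr where
  toEquiv := ⟨fun x => (x.2.1, x.1, !x.2.2), fun x => (x.2.1, x.1, !x.2.2),
    fun x => by simp, fun x => by simp⟩
  map_rel_iff' := by
    intro x y
    obtain ⟨x1, x2, s⟩ := x
    obtain ⟨y1, y2, t⟩ := y
    cases s <;> cases t <;> simp [Gr, rx, ry] <;> tauto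

lemma transitive : VertexTransitive Gr := by
  intro u v
  by_cases h : u.2.2 = v.2.2
  · refine ⟨shift (v.1 - u.1) (v.2.1 - u.2.1), ?_⟩
    show (u.1 + (v.1 - u.1), u.2.1 + (v.2.1 - u.2.1), u.2.2) = v
    rw [h]
    simp
  · refine ⟨swap.trans (shift (v.1 - u.2.1) (v.2.1 - u.1)), ?_⟩
    show (u.2.1 + (v.1 - u.2.1), u.1 + (v.2.1 - u.1), !u.2.2) = v
    have : (!u.2.2) = v.2.2 := by
      cases h1 : u.2.2 <;> cases h2 : v.2.2 <;> simp_all
    rw [this]
    simp

lemma locally_finite (v : ℤ × ℤ × Bool) : (Gr.neighborSet v).Finite := by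
  refine (finite_ball v 1).subset ?_
  intro u hu
  rw [mem_neighborSet] at hu
  unfold Ball
  rw [Set.mem_ofPred_eq, dist_eq_one_iff_adj.2 hu.symm]

/-- **Result.** There is an infinite, connected, locally finite, vertex-transitive graph which has
survival number `2` and does not have linear growth. -/
theorem result : ∃ (V : Type) (G : SimpleGraph V), Infinite V ∧ G.Connected ∧
    (∀ v, (G.neighborSet v).Finite) ∧ VertexTransitive G ∧ survival G = 2 ∧
      ¬ LinearGrowth G :=
  ⟨ℤ × ℤ × Bool, Gr, inferInstance, connected, locally_finite, transitive, survival_eq,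
    not_linear⟩

end Pool.Agent.Results.MP_20f07a_co.QuadraticSurvivalTwo
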